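import Pool.Agent.H27.AH.Fin

/-!
# Absolutely Hodge classes: products of an arbitrary variety with varieties of K3 type

Let `X i`, `i ∈ I`, be a finite or infinite family of smooth projective complex varieties of CM type
and of K3 type: there are only two classes of type `(p, q)` with `p ≠ q`, up to multiples (if there
are any), one of type `(p, q)` with `p - q = c i > 0` and one of type `(q, p)`. Examples are the CM
elliptic curves (`c i = 1`), the K3 surfaces with complex multiplication, the abelian and other
surfaces of CM type with `p_g = 1` and `q = 0` (`c i = 2`), the cubic fourfolds of CM type
(`c i = 2`) and rigid Calabi-Yau threefolds of CM type (`c i = 3`). The cohomology `H(X i)` has an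
endomorphism with a squarefree characteristic polynomial; its eigenvalue `γ i` on the class of
type `(p, q)` generates a CM field `ℚ(γ i)` the degree of which is the dimension of the
transcendental part of `H(X i)`. Suppose that the fields generated by the conjugates of `γ i` and by
the conjugates of all `γ j` different from `γ i` have only totally real numbers in common.

Let `Z` be an arbitrary smooth projective variety and let `r` be its level, the largest `|p - q|`
such that the Hodge number `h^{p,q}` of `Z` is not zero, or any larger number, for instance `dim Z`.

*Theorem.* All absolutely Hodge classes on all products `Z × X i₁ × ⋯ × X iₙ` are algebraic if this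
is true for the products with few factors, where
* the sum of the numbers `2 c i / deg (γ i)` of the factors is at most `r`,
* at most `deg (γ i) / 2 * ⌊r / c i⌋` of the factors have the same number `γ i`,
and if the Hodge classes on `X i × X j` are algebraic whenever `γ i = γ j` (this is a theorem for CM
elliptic curves and, by Buskin, for K3 surfaces with complex multiplication).

In particular, if the level of `Z` is smaller than all `c i`, then there are no factors at all: the
absolutely Hodge classes are algebraic on all products of `Z` and members of the family if and only
if they are algebraic on `Z`. This applies to K3 surfaces with complex multiplication and surfaces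
`Z` with `p_g = 0`. For CM elliptic curves, products with at most `r` factors decide.

*Proof.* Let `x` be an absolutely Hodge class on `Z × P`, where `P` is a product of members. Over the
field of algebraic numbers it is a sum of classes `z_a ⊗ w_a`, where the `w_a` are products of
eigenclasses. If `z_a ≠ 0` then, for every automorphism `σ`, the difference of the types of the
conjugate of `w_a` by `σ` is at most `r` in absolute value. Cancel from `w_a` the letters of type
`(p, p)` for all `σ` and the pairs of dual letters; let `b` be what remains, a word on a product `Q`
with fewer factors. Changing the signs of the contributions of the different fields independently, and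
taking the mean value over all `σ`, we see that the factors of `Q` satisfy the conditions above.
The contraction of `x` with the product of a class of the dual basis of the `w_a` and of `b`, which is
algebraic, is the class `z_a ⊗ b`, so this is a combination of absolutely Hodge classes on `Z × Q` and
algebraic by hypothesis. The contraction with a dual of `b` shows that `z_a ⊗ w_a` is algebraic.
-/

set_option autoImplicit false

open CategoryTheory AlgebraicGeometry

universe u w

namespace Pool.Agent.H27.Keep.FewFactorsAH

open Pool.Agent.H914 Pool.Agent.H914.VarClass Pool.Agent.H914.VarClass.Obj
  Pool.Agent.H914.WeilCohomology Pool.Agent.Y121.AHS Pool.Agent.H27.AH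

/-- **Absolutely Hodge classes on the products of an arbitrary variety with varieties of CM type and
of K3 type are decided by the products with few factors.** -/
theorem result {k : Type u} [Field k] {𝒱 : VarClass k} {ops : CycleOps 𝒱} (T : HodgeTheory ops)
    (D : Conjugates T) (hpos : NonnegTypes T) (ε : Qb →+* ℂ) {I : Type w} (X : I → 𝒱.Obj)
    (γ : I → Qb) (c : I → ℕ) (hX : ∀ i, IsK3Type T (ε (γ i)) (c i) (X i))
    (hc : ∀ i j, γ i = γ j → c i = c j) (hconj : ∀ i, HasConjugate (γ i)) (hmeet : MeetInReal γ)
    (hpairs : ∀ i j, γ i = γ j → AllAlg (IsHodge T ((X i).prod (X j)))) (Z : 𝒱.Obj) :
    HasLevelAtMost T Z.dim Z ∧ ∀ r : ℕ, HasLevelAtMost T r Z →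
      (∀ L, IsShort γ c r L → AllAlg (IsAbsHodge D (times X Z L))) →
        ∀ L, AllAlg (IsAbsHodge D (times X Z L)) :=
  absAlg_few D hpos hX hc hconj hmeet hpairs Z

end Pool.Agent.H27.Keep.FewFactorsAH
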